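import Mathlib

set_option autoImplicit false

namespace Pool.Agent.Results.MP_f1fe0b_lc.NotAcyclic

def code (a : Fin 4 → Fin 2) : ℕ := 8 * (a 0).val + 4 * (a 1).val + 2 * (a 2).val + (a 3).val

def rz (i : Fin 4) (a : Fin 4 → Fin 2) : ℤ :=
  (![[0, 1, 1, 1, 1, 0, 1, 0, 1, 0, 0, 0, 0, 1, 0, 1],
    [0, 0, 1, 1, 1, 1, 0, 0, 1, 0, 0, 0, 0, 1, 1, 1],
    [0, 1, 1, 0, 0, 1, 1, 0, 1, 0, 0, 1, 0, 0, 1, 1],
    [0, 1, 0, 1, 0, 1, 1, 0, 1, 0, 0, 1, 0, 1, 1, 0]] i : List ℤ).getD (code a) 0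

def S (a : Fin 4 → Fin 2) : Prop := code a ∈ [1, 2, 3, 5, 6, 13, 14, 15]

instance : DecidablePred S := fun a => inferInstanceAs (Decidable (code a ∈ [1, 2, 3, 5, 6, 13, 14, 15]))

lemma h1 : ∀ (N : Finset (Fin 4)) (a : Fin 4 → Fin 2), ∃ b : Fin 4 → Fin 2,
    (∀ i, i ∉ N → b i = a i) ∧
      ∀ i ∈ N, ∀ c, c ≠ b i → rz i (Function.update b i c) < rz i b := by decide +kernel

lemma h2 : ∀ x y : Fin 4 → Fin 2, S x →
    (∀ i, (∀ c, rz i (Function.update x i c) ≤ rz i x) → y i = x i) → S y := by decide +kernel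

lemma h3 : ∀ x : Fin 4 → Fin 2, S x → ¬ ∀ i c, rz i (Function.update x i c) ≤ rz i x := by
  decide +kernel

theorem result : ∃ (n : ℕ) (A : Fin n → Type) (_ : ∀ i, Fintype (A i))
    (r : Fin n → (∀ i, A i) → ℝ),
    (∀ (N : Finset (Fin n)) (a : ∀ i, A i), ∃ b : ∀ i, A i, (∀ i, i ∉ N → b i = a i) ∧
      ∀ i ∈ N, ∀ c : A i, c ≠ b i → r i (Function.update b i c) < r i b) ∧
    ∃ a : ∀ i, A i, ∀ b : ∀ i, A i,
      Relation.ReflTransGen (fun x y : ∀ i, A i =>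
        ∀ i, (∀ c : A i, r i (Function.update x i c) ≤ r i x) → y i = x i) a b →
      ¬ ∀ (i : Fin n) (c : A i), r i (Function.update b i c) ≤ r i b := by
  refine ⟨4, fun _ => Fin 2, inferInstance, fun i a => (rz i a : ℝ), ?_, ![0, 0, 0, 1], ?_⟩
  · simpa only [Int.cast_lt] using h1
  · simp only [Int.cast_le]
    intro b hb
    refine h3 b ?_
    induction hb with
    | refl => decide
    | tail _ h ih => exact h2 _ _ ih h

end Pool.Agent.Results.MP_f1fe0b_lc.NotAcyclic
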